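import Pool.Agent.Lib.MP_ab8df0_nt.A.Twr

/-! Square classes with even valuation outside 10. -/

namespace Pool.Agent.Lib.MP_ab8df0_nt.A.Q5a

open Pool.Agent.Lib.MP_ab8df0_nt.A

/-- Lower coefficients of the polynomial. -/
def fl : List ℤ := [-2, 5, 0, 5, 0]

/-- The modulus. -/
def m : ℕ := nat_lit 0x1b595de88098f9ad1798af65d59

/-- The roots modulo the modulus. -/
def ρ : List ℕ := [nat_lit 0x5b8f21a1e019c7250970e41ae5, nat_lit 0xdd42430f2547ab0ca6854ec5a9, nat_lit 0x2ca0db09de5b68bd0d5ddb5149, nat_lit 0x1967abe84fc4cd6c719fb181be7, nat_lit 0x6f3ebed0331583ed1bc6c66cf4]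

theorem a0 : CovA fl 10 27 m 3 ρ 0 (0 + 28) := covA _ _ _ _ _ _ _ _
  [(0, []),
  (0, [⟨[1], 1, 1, [1], [2, 0, 1]⟩, ⟨[1, 0, 0, 2], 1, 4, [2, 2], []⟩]),
  (0, [⟨[5], 1, 1, [1], [0, 3, 0, 1]⟩, ⟨[1, 4, 5, 2], 1, 2, [5, 5, 1], []⟩]),
  (3, []),
  (0, [⟨[5], 1, 1, [1], [2, -1, 1]⟩, ⟨[2, 4], 1, 2, [2, 10], []⟩, ⟨[9, 2], 1, 2, [5, 6], []⟩]),
  (0, [⟨[12], 1, 1, [1], [1, 1]⟩, ⟨[2, 6, 7, 1], 1, 2, [8, 2, 4, 11], []⟩]),
  (0, [⟨[3], 1, 1, [1], [2, 0, 4, 0, 1]⟩, ⟨[5, 9, 3, 14], 1, 2, [5, 14, 16, 9], []⟩]),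
  (0, [⟨[2, 14, 0, 14, 0], 1, 2, [3, 3, 15, 16, 10], []⟩]),
  (3, []),
  (0, [⟨[3], 1, 1, [1], [1, 3, 1, 1]⟩, ⟨[7, 4, 9, 20], 1, 2, [9, 1, 20, 4], []⟩]),
  (3, [])] (by decide +kernel)

theorem ra {F : Type*} [Field F] [NumberField F] {α : NumberField.RingOfIntegers F} (h : Gen α fl) :
    Range F 10 27 0 28 :=
  have hs : splitOK fl m 3 ρ = true := by decide +kernel
  a0.range h hs

open NumberField IsDedekindDomain

variable {F : Type*} [Field F] [NumberField F] {α : 𝓞 F}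

theorem c2 (h : Gen α fl) : Cnt F 2 2 :=
  h.cnt (m := m) (r := 3) (ρ := ρ) Nat.prime_two (l := [(⟨[0], 1, 1, [1], [0, 1]⟩, 1), (⟨[1, 1], 2, 2, [1], [1, 1, 1]⟩, 1)]) (by decide +kernel)

theorem c5 (h : Gen α fl) : Cnt F 5 1 :=
  h.cnt (m := m) (r := 3) (ρ := ρ) Nat.prime_five (l := [(⟨[2], 5, 1, [1], [-2, 1]⟩, 1)]) (by decide +kernel)

/-- The generators. -/
def g : Fin 6 → List ℤ := ![[-1],
  [0, 1],
  [2],
  [1, 0, 1],
  [-1, 1, 1],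
  [-1, 1, 0, 1]]

theorem SU (h : Gen α fl) {ξ : F} (h0 : ξ ≠ 0)
    (hξ : ∀ v : HeightOneSpectrum (𝓞 F), ((10 : ℕ) : 𝓞 F) ∉ v.asIdeal →
      ∃ k : ℤ, v.valuation F ξ = WithZero.exp (2 * k)) :
    ∃ (e : Fin 6 → Bool) (u : F), ξ = (∏ i, if e i then ev (α : F) (g i) else 1) * u ^ 2 :=
  h.SU (M := 27) (m := m) (r := 3) (ρ := ρ) (D := 200000) (dF := 200000)
    (bs := [([1], 1, [-1, 5, -10, 10, -5]), ([0, 1], 1, [-2, 5, 0, 5, 0]), ([0, 0, 1], 1, [-4, 25, 50, 35, 10]), ([0, 0, 0, 1], 1, [-8, 185, -120, 50, 0]), ([0, 0, 0, 0, 1], 1, [-16, 1025, -670, 275, -30])])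
    (K := 10000000000000000000000000000000000000000) (E := 4187530884610668485904769689838191246848) (zs := [⟨-2866978690215772028996006851632818905138, 11938819661489497837987184895148913716527⟩, ⟨-2866978690215772028996006851632818905138, -11938819661489497837987184895148913716527⟩, ⟨1095088414640769311711611553731263106789, 19317415997845521564710386424211262993269⟩, ⟨1095088414640769311711611553731263106789, -19317415997845521564710386424211262993269⟩]) (T := 41)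
    (c := ![(751, 168), (89, 62), (229, 165), (1753, 823), (449, 369), (409, 20)]) (by decide +kernel)
    ((c2 h).mul (c5 h)) (ra h) h0 hξ

instance : Fact (Irreducible (mq fl)) :=
  ⟨irr_of_deg (D := 5) (D' := 5) (by norm_num : Nat.Prime 31) (by norm_num : Nat.Prime 31) (l := [⟨[2, 26, 0, 26, 0], 1, 5, [28, 14, 25, 0, 14], []⟩])
    (l' := [⟨[2, 26, 0, 26, 0], 1, 5, [28, 14, 25, 0, 14], []⟩]) (by decide +kernel)⟩

theorem re0 (h : Gen α fl) : ∃ φ : F →+* ℝ, ((354378055115000543456879059580 : ℤ) : ℝ) / ((10 ^ 30 : ℕ) : ℝ) < φ α ∧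
    φ α < ((354378055115000543456879059581 : ℤ) : ℝ) / ((10 ^ 30 : ℕ) : ℝ) := h.real (by decide +kernel)


end Pool.Agent.Lib.MP_ab8df0_nt.A.Q5a
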